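import Mathlib

/-!
# The extremal linear bound for `A_v(0, d)` (MP_6ec7bd, Q1)

The conjectured bound fails for the patterns `v = 1 0^j`, however large the constant `c` in the
threshold `d ≥ 2^(2|v| + c)` is taken.
-/

set_option autoImplicit false

namespace Pool.Agent.Results.MP_6ec7bd_co.Threshold

/-- The number of occurrences of the nonempty word `v` as a factor of `w`. -/
def occ (v : List Bool) : List Bool → ℕ
  | [] => 0
  | a :: w => (if v <+: a :: w then 1 else 0) + occ v w

/-- The binary expansion `(n)_2`, most significant digit first; `(0)_2` is empty. -/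
def bin (n : ℕ) : List Bool := ((Nat.digits 2 n).map fun t => t == 1).reverse

/-- The integer `[w]_2` represented by `w` in base 2. -/
def val (w : List Bool) : ℕ := w.foldl (fun a b => 2 * a + b.toNat) 0

/-- The number of leading zeros. -/
def lead (v : List Bool) : ℕ := (v.takeWhile fun b => !b).length

/-- The number of trailing zeros. -/
def trail (v : List Bool) : ℕ := lead v.reverse

/-- `e_v(n)`, the number of occurrences of `v` in `0^i (n)_2`. -/
def e (v : List Bool) (n : ℕ) : ℕ := occ v (List.replicate (lead v) false ++ bin n)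

/-- `A_v(0, d)`. -/
noncomputable def A (v : List Bool) (d : ℕ) : ℕ := sInf {l | 1 ≤ l ∧ Odd (e v (l * d))}

/-- The pairs `(x, y)` in the definition of `C_v` and `B_v`. -/
def Admissible (v x y : List Bool) : Prop :=
  x.length = v.length - 1 ∧ y.length = v.length - 1 ∧
    Odd (occ v (List.replicate (lead v) false ++ x) + occ v (y ++ x) +
      occ v (y ++ List.replicate (trail v) false))

/-- `(x, y)` is the lexicographically least admissible pair (words of the same length are
compared lexicographically by comparing the integers they represent). -/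
def IsMinPair (v x y : List Bool) : Prop :=
  Admissible v x y ∧ ∀ x' y', Admissible v x' y' →
    val x < val x' ∨ (val x = val x' ∧ val y ≤ val y')

/-- The constant `C_v`, given `x_min = x`. -/
noncomputable def C (v x : List Bool) : ℝ := (val x : ℝ) / 2 ^ (v.length - 1 + trail v)

/-- The constant `B_v`, given `x_min = x` and `y_min = y`. -/
noncomputable def B (v x y : List Bool) : ℝ := (val y : ℝ) - 2 ^ trail v * C v x

/-! ### Occurrences of `1 0^j` -/

/-- the word `1 0^j` -/
def pat (j : ℕ) : List Bool := true :: List.replicate j false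

lemma pat_length (j : ℕ) : (pat j).length = j + 1 := by simp [pat]

lemma occ_false (j : ℕ) (w : List Bool) : occ (pat j) (false :: w) = occ (pat j) w := by
  rw [occ, if_neg, zero_add]
  intro h
  have := h.getElem (i := 0) (by simp [pat])
  simp [pat] at this

lemma occ_zeros (j g : ℕ) (w : List Bool) :
    occ (pat j) (List.replicate g false ++ w) = occ (pat j) w := by
  induction g with
  | zero => rfl
  | succ g ih => rw [List.replicate_succ, List.cons_append, occ_false, ih]

lemma occ_short (v w : List Bool) (h : w.length < v.length) : occ v w = 0 := by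
  induction w with
  | nil => rfl
  | cons a w ih =>
    rw [occ, if_neg, ih (by simp at h; omega)]
    intro hc
    have := hc.length_le
    omega

/-- occurrences do not cross a letter `1` -/
lemma occ_append (j : ℕ) (P Q : List Bool) :
    occ (pat j) (P ++ true :: Q) = occ (pat j) P + occ (pat j) (true :: Q) := by
  induction P with
  | nil => simp [occ]
  | cons a P ih =>
    have e2 : occ (pat j) (a :: P) = (if pat j <+: a :: P then 1 else 0) + occ (pat j) P := rfl
    rw [List.cons_append, occ, ih, e2]
    have : (pat j <+: a :: (P ++ true :: Q)) ↔ (pat j <+: a :: P) := by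
      constructor
      · intro h
        by_cases hl : (pat j).length ≤ (a :: P).length
        · exact List.prefix_of_prefix_length_le h
            (by rw [← List.cons_append]; exact List.prefix_append _ _) hl
        · exfalso
          rw [not_le] at hl
          rw [List.length_cons] at hl
          have h1 := h.getElem (i := P.length + 1) hl
          simp [pat] at h1
      · intro h
        exact h.trans (by rw [← List.cons_append]; exact List.prefix_append _ _)
    simp only [this]
    ring

/-! ### Binary expansions -/

lemma bin_head {n : ℕ} (hn : 0 < n) : ∃ W, bin n = true :: W := by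
  have h0 : Nat.digits 2 n ≠ [] := Nat.digits_ne_nil_iff_ne_zero.mpr hn.ne'
  have h1 := Nat.getLast_digit_ne_zero 2 (m := n) hn.ne'
  have h2 : (Nat.digits 2 n).getLast h0 < 2 :=
    Nat.digits_lt_base (by norm_num) (List.getLast_mem h0)
  have h3 : (Nat.digits 2 n).getLast h0 = 1 := by omega
  refine ⟨(((Nat.digits 2 n).dropLast).map fun t => t == 1).reverse, ?_⟩
  unfold bin
  conv_lhs => rw [← List.dropLast_append_getLast h0]
  rw [List.map_append, List.reverse_append, h3]
  rfl

lemma bin_length (n : ℕ) : (bin n).length = (Nat.digits 2 n).length := by simp [bin]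

lemma bin_append {n m k : ℕ} (hm : 0 < m) :
    bin (n + 2 ^ ((bin n).length + k) * m) = bin m ++ List.replicate k false ++ bin n := by
  rw [bin_length]
  unfold bin
  rw [← Nat.digits_append_zeroes_append_digits (b := 2) (by norm_num) hm]
  simp only [List.map_append, List.reverse_append, List.map_replicate, List.reverse_replicate,
    List.append_assoc]
  rfl

lemma bin_length_le {l j : ℕ} (h : l < 2 ^ j) : (bin l).length ≤ j := by
  rw [bin_length]
  exact (Nat.digits_length_le_iff (by norm_num) _).mpr h

/-- the binary expansion of `l (2^(2b) + 2^b + 1)` -/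
lemma bin_mul {l b : ℕ} (hl : 0 < l) (hb : (bin l).length ≤ b) :
    bin (l * (2 ^ (2 * b) + 2 ^ b + 1)) =
      (bin l ++ List.replicate (b - (bin l).length) false) ++
        ((bin l ++ List.replicate (b - (bin l).length) false) ++ bin l) := by
  have e1 : l * (2 ^ (2 * b) + 2 ^ b + 1) =
      l + 2 ^ ((bin l).length + (b - (bin l).length)) *
        (l + 2 ^ ((bin l).length + (b - (bin l).length)) * l) := by
    rw [show (bin l).length + (b - (bin l).length) = b by omega]
    ring
  rw [e1, bin_append (by positivity), bin_append hl]
  simp only [List.append_assoc]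

lemma occ_mul {l b j : ℕ} (hl : 0 < l) (hb : (bin l).length ≤ b) :
    occ (pat j) (bin (l * (2 ^ (2 * b) + 2 ^ b + 1))) =
      2 * occ (pat j) (bin l ++ List.replicate (b - (bin l).length) false) +
        occ (pat j) (bin l) := by
  rw [bin_mul hl hb]
  obtain ⟨W, hW⟩ := bin_head hl
  have key : ∀ P Q : List Bool, (∃ Q', Q = true :: Q') →
      occ (pat j) (P ++ Q) = occ (pat j) P + occ (pat j) Q := by
    rintro P Q ⟨Q', rfl⟩
    exact occ_append j P Q'
  rw [key _ _ ⟨(W ++ List.replicate (b - (bin l).length) false) ++ bin l, by
    conv_lhs => rw [List.append_assoc, hW]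
    simp [hW]⟩, key _ (bin l) ⟨W, hW⟩]
  ring

lemma bin_two_pow (j : ℕ) : bin (2 ^ j) = pat j := by
  have h := bin_append (n := 0) (m := 1) (k := j) one_pos
  have e0 : bin 0 = [] := by simp [bin]
  have e1 : bin 1 = [true] := by simp [bin]
  rw [e0, e1, List.length_nil, zero_add, zero_add, mul_one, List.append_nil] at h
  exact h

lemma occ_self (j : ℕ) : occ (pat j) (pat j) = 1 := by
  have h0 : occ (pat j) (List.replicate j false) = 0 := occ_short _ _ (by simp [pat])
  have hp : pat j <+: true :: List.replicate j false := List.prefix_rfl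
  have : occ (pat j) (true :: List.replicate j false) = 1 := by
    rw [occ, if_pos hp, h0]
  exact this

lemma lead_pat (j : ℕ) : lead (pat j) = 0 := by simp [lead, pat]

lemma trail_pat (j : ℕ) : trail (pat j) = j := by
  have h : (pat j).reverse = List.replicate j false ++ [true] := by simp [pat]
  unfold trail lead
  rw [h, List.takeWhile_append_of_pos]
  · simp
  · intro b hb
    rw [List.mem_replicate] at hb
    simp [hb.2]

lemma e_pat (j n : ℕ) : e (pat j) n = occ (pat j) (bin n) := by
  unfold e; rw [lead_pat]; rfl

/-- the value of `A_v(0, d)` for `v = 1 0^j` and `d = 2^(2b) + 2^b + 1`, `b > j` -/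
lemma A_pat {j b : ℕ} (hb : j + 1 ≤ b) : A (pat j) (2 ^ (2 * b) + 2 ^ b + 1) = 2 ^ j := by
  unfold A
  apply le_antisymm
  · apply Nat.sInf_le
    refine ⟨Nat.one_le_two_pow, ?_⟩
    rw [e_pat, occ_mul (by positivity) (by rw [bin_two_pow, pat_length]; exact hb), bin_two_pow,
      occ_self]
    exact ⟨_, rfl⟩
  · apply le_csInf
    · refine ⟨2 ^ j, Nat.one_le_two_pow, ?_⟩
      rw [e_pat, occ_mul (by positivity) (by rw [bin_two_pow, pat_length]; exact hb),
        bin_two_pow, occ_self]
      exact ⟨_, rfl⟩
    · rintro l ⟨hl1, hl2⟩
      by_contra hc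
      rw [not_le] at hc
      have hlen := bin_length_le hc
      rw [e_pat, occ_mul (by omega) (by omega),
        occ_short (pat j) (bin l) (by rw [pat_length]; omega), add_zero] at hl2
      rw [Nat.odd_iff] at hl2
      omega

/-! ### The constants of `1 0^j` -/

lemma val_append_one (w : List Bool) (b : Bool) : val (w ++ [b]) = 2 * val w + b.toNat := by
  simp [val]

lemma val_zeros (n : ℕ) : val (List.replicate n false) = 0 := by
  induction n with
  | zero => rfl
  | succ n ih => rw [List.replicate_succ', val_append_one, ih]; rfl

lemma eq_zeros {w : List Bool} (h : val w = 0) : w = List.replicate w.length false := by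
  induction w using List.reverseRecOn with
  | nil => rfl
  | append_singleton w b ih =>
    rw [val_append_one] at h
    have h1 : val w = 0 := by omega
    have h2 : b = false := by
      cases b
      · rfl
      · simp at h
    rw [List.length_append, List.length_singleton, List.replicate_succ', ← ih h1, h2]

lemma eq_one {w : List Bool} (h : val w = 1) : ∃ n, w = List.replicate n false ++ [true] := by
  induction w using List.reverseRecOn with
  | nil => simp [val] at h
  | append_singleton w b _ =>
    rw [val_append_one] at h
    have h2 : b = true := by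
      cases b
      · simp at h
      · rfl
    have h1 : val w = 0 := by subst h2; simp at h; exact h
    exact ⟨w.length, by rw [← eq_zeros h1, h2]⟩

/-- the word `0^(j-1) 1` -/
def unit (j : ℕ) : List Bool := List.replicate (j - 1) false ++ [true]

lemma val_unit (j : ℕ) : val (unit j) = 1 := by
  unfold unit; rw [val_append_one, val_zeros]; rfl

lemma unit_length {j : ℕ} (hj : 1 ≤ j) : (unit j).length = j := by
  unfold unit; simp; omega

lemma minPair {j : ℕ} (hj : 1 ≤ j) : IsMinPair (pat j) (unit j) (unit j) := by
  have hadm : Admissible (pat j) (unit j) (unit j) := by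
    refine ⟨by rw [unit_length hj, pat_length]; rfl, by rw [unit_length hj, pat_length]; rfl, ?_⟩
    have h1 : occ (pat j) (List.replicate (lead (pat j)) false ++ unit j) = 0 := by
      rw [lead_pat]
      exact occ_short _ _ (by
        rw [List.length_append, List.length_replicate, unit_length hj, pat_length]; omega)
    have h2 : occ (pat j) (unit j ++ unit j) = 0 := by
      unfold unit
      rw [List.append_assoc, occ_zeros, ← List.append_assoc, occ_append, occ_short, occ_short]
      · rw [pat_length]; simp; omega
      · rw [pat_length]; simp; omega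
    have h3 : occ (pat j) (unit j ++ List.replicate (trail (pat j)) false) = 1 := by
      unfold unit
      rw [trail_pat, List.append_assoc, occ_zeros]
      exact occ_self j
    rw [h1, h2, h3]
    exact ⟨0, rfl⟩
  refine ⟨hadm, ?_⟩
  rintro x' y' ⟨hx, hy, hodd⟩
  rw [pat_length, Nat.add_sub_cancel] at hx hy
  have h1 : occ (pat j) (List.replicate (lead (pat j)) false ++ x') = 0 := by
    rw [lead_pat]
    exact occ_short _ _ (by
      rw [List.length_append, List.length_replicate, hx, pat_length]; omega)
  rw [h1, zero_add, trail_pat] at hodd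
  rw [val_unit]
  have hx0 : val x' ≠ 0 := by
    intro h
    have := eq_zeros h
    rw [hx] at this
    rw [this, Nat.odd_iff] at hodd
    omega
  by_cases hx1 : val x' = 1
  · right
    refine ⟨hx1.symm, ?_⟩
    by_contra hy0
    have hy0 : val y' = 0 := by omega
    have hy1 := eq_zeros hy0
    obtain ⟨n, hn⟩ := eq_one hx1
    rw [hy1, hn, occ_zeros, occ_zeros, occ_zeros, occ_short, occ_short] at hodd
    · exact absurd hodd (by decide)
    · rw [pat_length, List.length_replicate]; omega
    · rw [pat_length, List.length_singleton]; omega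
  · left; omega

/-- **MP_6ec7bd, Q1 (disproof).** For every `c` there are a pattern `v ≠ 11` in `V` and
`d ≥ 2^(2|v| + c)` such that `A_v(0, d) > C_v d + B_v`. The case `c = 1` disproves the
conjecture. -/
theorem result (c : ℕ) : ∃ (v x y : List Bool) (d : ℕ), 2 ≤ v.length ∧ true ∈ v ∧
    v ≠ [true, true] ∧ IsMinPair v x y ∧ 2 ^ (2 * v.length + c) ≤ d ∧
    C v x * d + B v x y < A v d := by
  have hj : 1 ≤ 2 * c + 5 := by omega
  refine ⟨pat (2 * c + 5), unit (2 * c + 5), unit (2 * c + 5),
    2 ^ (2 * (3 * c + 6)) + 2 ^ (3 * c + 6) + 1, ?_, ?_, ?_, minPair hj, ?_, ?_⟩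
  · rw [pat_length]; omega
  · simp [pat]
  · intro h
    have := congrArg List.length h
    rw [pat_length] at this
    simp at this
  · rw [pat_length]
    have : 2 ^ (2 * (2 * c + 5 + 1) + c) ≤ 2 ^ (2 * (3 * c + 6)) :=
      Nat.pow_le_pow_right (by norm_num) (by omega)
    exact this.trans (by rw [add_assoc]; exact Nat.le_add_right _ _)
  · rw [A_pat (by omega)]
    unfold B C
    rw [val_unit, pat_length, trail_pat, show 2 * c + 5 + 1 - 1 + (2 * c + 5) = 4 * c + 10 by omega]
    have e1 : (2 : ℝ) ^ (2 * (3 * c + 6)) = 2 ^ (2 * c + 2) * 2 ^ (4 * c + 10) := by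
      rw [← pow_add]; congr 1; ring
    have e2 : (2 : ℝ) ^ (3 * c + 6) ≤ 2 ^ (4 * c + 10) :=
      pow_le_pow_right₀ (by norm_num) (by omega)
    have e3 : (1 : ℝ) ≤ 2 ^ (4 * c + 10) := one_le_pow₀ (by norm_num)
    have e4 : (2 : ℝ) ^ (2 * c + 5) = 8 * 2 ^ (2 * c + 2) := by
      rw [show 2 * c + 5 = (2 * c + 2) + 3 by ring, pow_add]; ring
    have e5 : (4 : ℝ) ≤ 2 ^ (2 * c + 2) := by
      rw [pow_add]
      have : (1 : ℝ) ≤ 2 ^ (2 * c) := one_le_pow₀ (by norm_num)
      linarith
    have hpos : (0 : ℝ) < 2 ^ (4 * c + 10) := by positivity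
    push_cast
    have h1 : (1 : ℝ) / 2 ^ (4 * c + 10) * (2 ^ (2 * (3 * c + 6)) + 2 ^ (3 * c + 6) + 1) ≤
        2 ^ (2 * c + 2) + 2 := by
      rw [div_mul_eq_mul_div, one_mul, div_le_iff₀ hpos, e1]
      nlinarith
    have h2 : (0 : ℝ) ≤ 2 ^ (2 * c + 5) * (1 / 2 ^ (4 * c + 10)) := by positivity
    linarith

end Pool.Agent.Results.MP_6ec7bd_co.Threshold
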